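import Pool.Agent.Helper26.WR.Stmts

set_option autoImplicit false

/-! # Artin-Schreier generators for the characters -/

namespace Pool.Agent.Helper26.WR

open Pool.Agent.Helper21.DN

universe u

theorem st_CHA (hR : ST_REDP.{u}) : ST_CHA.{u} := by
  intro p _ k _ _ _ M _ _ _ _ χ
  have hKp : CharP (LaurentSeries k) p :=
    charP_of_injective_ringHom (κ0 k).injective p
  have hMp : CharP M p :=
    charP_of_injective_algebraMap (algebraMap (LaurentSeries k) M).injective p
  set cM : ZMod p →+* M := ZMod.castHom (dvd_refl p) M with hcM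
  have c1 : ∀ a : ZMod p, ((a.val : ℕ) : M) = cM a := fun a => by
    rw [hcM, ZMod.castHom_apply, ZMod.natCast_val]
  have c3 : ∀ (σ : M ≃ₐ[LaurentSeries k] M) (a : ZMod p), σ (cM a) = cM a := fun σ a => by
    rw [← c1, map_natCast]
  have c4 : ∀ a : ZMod p, cM a ^ p = cM a := fun a => by
    rw [← map_pow, ZMod.pow_card]
  have c5 : ∀ x : M, x ^ p = x → ∃ a : ZMod p, cM a = x := fun x hx => by
    have h1 : x ∈ (⊥ : Subfield M) := (Subfield.mem_bot_iff_pow_eq_self M p).2 hx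
    rw [← ZMod.fieldRange_castHom_eq_bot p] at h1
    obtain ⟨a, ha⟩ := h1
    exact ⟨a, ha⟩
  obtain ⟨θ, hθ⟩ := Algebra.trace_surjective (LaurentSeries k) M 1
  have hsum : ∑ σ : M ≃ₐ[LaurentSeries k] M, σ θ = 1 := by
    rw [← trace_eq_sum_automorphisms, hθ, map_one]
  set y0 : M := - ∑ τ : M ≃ₐ[LaurentSeries k] M, cM (χ τ).toAdd * τ θ with hy0
  have hσ : ∀ σ : M ≃ₐ[LaurentSeries k] M, σ y0 = y0 + cM (χ σ).toAdd := by
    intro σ
    have h1 : σ y0 = - ∑ τ : M ≃ₐ[LaurentSeries k] M,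
        cM (χ τ).toAdd * (σ * τ) θ := by
      rw [hy0, map_neg, map_sum]
      congr 1
      refine Finset.sum_congr rfl fun τ _ => ?_
      rw [map_mul, c3]
      rfl
    have h2 : ∑ τ : M ≃ₐ[LaurentSeries k] M, cM (χ τ).toAdd * (σ * τ) θ =
        ∑ τ : M ≃ₐ[LaurentSeries k] M, (cM (χ τ).toAdd - cM (χ σ).toAdd) * τ θ := by
      refine Fintype.sum_equiv (Equiv.mulLeft σ) _ _ fun τ => ?_
      rw [Equiv.coe_mulLeft, map_mul, toAdd_mul, map_add, add_sub_cancel_left]
    rw [h1, h2, hy0]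
    simp only [sub_mul, Finset.sum_sub_distrib, ← Finset.mul_sum, hsum]
    ring
  have hfix : ∀ σ : M ≃ₐ[LaurentSeries k] M, σ (y0 ^ p - y0) = y0 ^ p - y0 := by
    intro σ
    rw [map_sub, map_pow, hσ, add_pow_char, c4]
    ring
  obtain ⟨f, hf⟩ := (IsGalois.mem_range_algebraMap_iff_fixed (y0 ^ p - y0)).mpr hfix
  obtain ⟨h, a, ha, hfa⟩ := hR p k f
  have hyy : (y0 - algebraMap (LaurentSeries k) M h) ^ p - (y0 - algebraMap (LaurentSeries k) M h)
      = algebraMap (LaurentSeries k) M (pol a) := by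
    rw [← hfa, map_sub, hf, map_sub, map_pow, sub_pow_char]
    ring
  refine ⟨y0 - algebraMap (LaurentSeries k) M h, a, ha, ?_, hyy, ?_⟩
  · intro σ
    rw [map_sub, hσ, AlgEquiv.commutes, c1]
    ring
  · intro ha0
    rw [ha0] at hyy
    have hp0 : pol (0 : ℕ →₀ k) = 0 := by
      unfold pol
      exact Finsupp.sum_zero_index
    rw [hp0, map_zero, sub_eq_zero] at hyy
    obtain ⟨b, hb⟩ := c5 _ hyy
    ext σ
    have h1 : σ (y0 - algebraMap (LaurentSeries k) M h) = y0 - algebraMap (LaurentSeries k) M h := by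
      rw [← hb, c3]
    rw [map_sub, hσ, AlgEquiv.commutes] at h1
    have h2 : cM (χ σ).toAdd = 0 := by linear_combination h1
    have h3 : (χ σ).toAdd = 0 := cM.injective (h2.trans (map_zero cM).symm)
    have h4 : χ σ = 1 := by
      rw [← ofAdd_toAdd (χ σ), h3]
      rfl
    rw [h4]
    rfl

end Pool.Agent.Helper26.WR
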