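import Pool.Agent.Helper26.WR.Stmts

set_option autoImplicit false

/-! # Evaluation of Laurent series -/

namespace Pool.Agent.Helper26.WR

open Pool.Agent.Helper21.DN

universe u

section aux

variable {k F : Type u} [Field k] [Field F] (κ : k →+* F) (v : AddValuation F (WithTop ℤ))

private theorem eva_top {z : WithTop ℤ} (h : ∀ n : ℕ, ((n : ℤ) : WithTop ℤ) ≤ z) : z = ⊤ := by
  by_contra hz
  lift z to ℤ using hz
  have h1 := h (z.toNat + 1)
  have h2 : (((z.toNat + 1 : ℕ) : ℤ)) ≤ z := by exact_mod_cast h1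
  omega

private theorem eva_smul (i m : ℕ) :
    i • (((m : ℤ) : WithTop ℤ)) = (((i * m : ℕ) : ℤ) : WithTop ℤ) := by
  rw [← WithTop.coe_nsmul]
  simp

private theorem eva_mono {i j : ℕ} (h : i ≤ j) : ((i : ℤ) : WithTop ℤ) ≤ ((j : ℤ) : WithTop ℤ) := by
  exact_mod_cast h

private theorem eva_E {y : F} {m : ℕ} (hm : 1 ≤ m) (hy : v y = ((m : ℤ) : WithTop ℤ))
    (hκ : ∀ c, 0 ≤ v (κ c)) (Q : Polynomial k) (n : ℕ) (hQ : ∀ i, i < n → Q.coeff i = 0) :
    ((n : ℤ) : WithTop ℤ) ≤ v (Q.eval₂ κ y) := by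
  rw [Polynomial.eval₂_eq_sum, Polynomial.sum]
  refine AddValuation.map_le_sum v fun i hi => ?_
  have hni : n ≤ i := by
    by_contra hlt
    exact (Polynomial.mem_support_iff.mp hi) (hQ i (not_le.mp hlt))
  rw [v.map_mul, v.map_pow, hy, eva_smul]
  have h1 : ((n : ℤ) : WithTop ℤ) ≤ (((i * m : ℕ) : ℤ) : WithTop ℤ) :=
    eva_mono (hni.trans (Nat.le_mul_of_pos_right i hm))
  calc ((n : ℤ) : WithTop ℤ) = 0 + ((n : ℤ) : WithTop ℤ) := (zero_add _).symm
    _ ≤ v (κ (Q.coeff i)) + (((i * m : ℕ) : ℤ) : WithTop ℤ) := add_le_add (hκ _) h1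

/-- uniqueness of limits -/
private theorem eva_uniq {a b : F} (h : ∀ n : ℕ, ((n : ℤ) : WithTop ℤ) ≤ v (a - b)) : a = b := by
  have h1 := eva_top h
  exact sub_eq_zero.mp ((AddValuation.top_iff v).mp h1)

private theorem eva_pos {y : F} {m : ℕ} (hm : 1 ≤ m) (hy : v y = ((m : ℤ) : WithTop ℤ))
    (hκ : ∀ c, 0 ≤ v (κ c)) (Q : Polynomial k) : 0 ≤ v (Q.eval₂ κ y) := by
  have := eva_E κ v hm hy hκ Q 0 (fun i hi => absurd hi (Nat.not_lt_zero i))
  simpa using this

/-- the limit map as a ring homomorphism -/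
private theorem eva_hom {y : F} {m : ℕ} (hm : 1 ≤ m) (hy : v y = ((m : ℤ) : WithTop ℤ))
    (hκ : ∀ c, 0 ≤ v (κ c))
    (hcpl : ∀ x : ℕ → F, (∀ n : ℕ, ((n : ℤ) : WithTop ℤ) ≤ v (x (n + 1) - x n)) →
      ∃ z : F, ∀ n : ℕ, ((n : ℤ) : WithTop ℤ) ≤ v (z - x n)) :
    ∃ L : PowerSeries k →+* F, (∀ (f : PowerSeries k) (n : ℕ),
      ((n : ℤ) : WithTop ℤ) ≤ v (L f - (PowerSeries.trunc n f).eval₂ κ y)) ∧
      ∀ P : Polynomial k, L (P : PowerSeries k) = P.eval₂ κ y := by
  have hstep : ∀ (f : PowerSeries k) (n : ℕ), ((n : ℤ) : WithTop ℤ) ≤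
      v ((PowerSeries.trunc (n + 1) f).eval₂ κ y - (PowerSeries.trunc n f).eval₂ κ y) := by
    intro f n
    rw [← Polynomial.eval₂_sub]
    refine eva_E κ v hm hy hκ _ n fun i hi => ?_
    rw [Polynomial.coeff_sub, PowerSeries.coeff_trunc, PowerSeries.coeff_trunc,
      if_pos (by omega), if_pos hi, sub_self]
  choose L hL using fun f : PowerSeries k =>
    hcpl (fun n => (PowerSeries.trunc n f).eval₂ κ y) (hstep f)
  have hpoly : ∀ P : Polynomial k, L (P : PowerSeries k) = P.eval₂ κ y := by
    intro P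
    refine eva_uniq v fun n => ?_
    have e : L (P : PowerSeries k) - P.eval₂ κ y =
        (L (P : PowerSeries k) - (PowerSeries.trunc n (P : PowerSeries k)).eval₂ κ y) +
        (PowerSeries.trunc n (P : PowerSeries k) - P).eval₂ κ y := by
      rw [Polynomial.eval₂_sub]; ring
    rw [e]
    refine AddValuation.map_le_add v (hL _ n) (eva_E κ v hm hy hκ _ n fun i hi => ?_)
    rw [Polynomial.coeff_sub, PowerSeries.coeff_trunc, if_pos hi, Polynomial.coeff_coe, sub_self]
  have hpos : ∀ f, 0 ≤ v (L f) := by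
    intro f
    have e : L f = (L f - (PowerSeries.trunc 0 f).eval₂ κ y) +
        (PowerSeries.trunc 0 f).eval₂ κ y := by ring
    rw [e]
    refine AddValuation.map_le_add v ?_ (eva_pos κ v hm hy hκ _)
    have := hL f 0
    simpa using this
  have hadd : ∀ f g, L (f + g) = L f + L g := by
    intro f g
    refine eva_uniq v fun n => ?_
    have e : L (f + g) - (L f + L g) =
        (L (f + g) - (PowerSeries.trunc n (f + g)).eval₂ κ y) -
        ((L f - (PowerSeries.trunc n f).eval₂ κ y) +
          (L g - (PowerSeries.trunc n g).eval₂ κ y)) := by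
      rw [map_add, Polynomial.eval₂_add]; ring
    rw [e]
    exact AddValuation.map_le_sub v (hL _ n) (AddValuation.map_le_add v (hL _ n) (hL _ n))
  have hmul : ∀ f g, L (f * g) = L f * L g := by
    intro f g
    refine eva_uniq v fun n => ?_
    have e : L (f * g) - L f * L g =
        (L (f * g) - (PowerSeries.trunc n (f * g)).eval₂ κ y) -
        ((L f - (PowerSeries.trunc n f).eval₂ κ y) * L g +
          (PowerSeries.trunc n f).eval₂ κ y * (L g - (PowerSeries.trunc n g).eval₂ κ y)) +
        (PowerSeries.trunc n (f * g) -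
          PowerSeries.trunc n f * PowerSeries.trunc n g).eval₂ κ y := by
      rw [Polynomial.eval₂_sub, Polynomial.eval₂_mul]; ring
    rw [e]
    refine AddValuation.map_le_add v (AddValuation.map_le_sub v (hL _ n)
      (AddValuation.map_le_add v ?_ ?_)) (eva_E κ v hm hy hκ _ n fun i hi => ?_)
    · rw [v.map_mul]
      calc ((n : ℤ) : WithTop ℤ) = ((n : ℤ) : WithTop ℤ) + 0 := (add_zero _).symm
        _ ≤ _ := add_le_add (hL _ n) (hpos g)
    · rw [v.map_mul]
      calc ((n : ℤ) : WithTop ℤ) = 0 + ((n : ℤ) : WithTop ℤ) := (zero_add _).symm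
        _ ≤ _ := add_le_add (eva_pos κ v hm hy hκ _) (hL _ n)
    · rw [Polynomial.coeff_sub, PowerSeries.coeff_trunc, if_pos hi, sub_eq_zero]
      have h1 := PowerSeries.trunc_trunc_mul_trunc (n := n) f g
      have h2 := congrArg (fun P : Polynomial k => P.coeff i) h1
      simp only [PowerSeries.coeff_trunc, if_pos hi] at h2
      rw [← h2, ← Polynomial.coe_mul, Polynomial.coeff_coe]
  have hone : L 1 = 1 := by
    have := hpoly 1
    rwa [Polynomial.coe_one, Polynomial.eval₂_one] at this
  have hzero : L 0 = 0 := by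
    have := hpoly 0
    rwa [Polynomial.coe_zero, Polynomial.eval₂_zero] at this
  exact ⟨{ toFun := L, map_one' := hone, map_mul' := hmul, map_zero' := hzero, map_add' := hadd },
    hL, hpoly⟩

end aux

private theorem eva_ord {k : Type u} [Field k] (u : PowerSeries k)
    (hu : PowerSeries.constantCoeff u ≠ 0) :
    (HahnSeries.ofPowerSeries ℤ k u).orderTop = 0 := by
  have h0 : (HahnSeries.ofPowerSeries ℤ k u).coeff 0 ≠ 0 := by
    have := LaurentSeries.coeff_coe_powerSeries u 0
    rw [Nat.cast_zero] at this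
    rw [this, PowerSeries.coeff_zero_eq_constantCoeff_apply]
    exact hu
  refine HahnSeries.orderTop_eq_of_le (g := (0 : ℤ)) h0 fun g hg => ?_
  by_contra hlt
  apply hg
  have := PowerSeries.coeff_coe (f := u) g
  rw [if_pos (not_le.mp hlt)] at this
  exact this

theorem st_EVA (hCPL : ST_CPL.{u}) : ST_EVA.{u} := by
  intro k _ _ F _ _ _ _ v hv y m hm hy
  set κ : k →+* F := (algebraMap (LaurentSeries k) F).comp (κ0 k) with hκdef
  have hκ0 : ∀ c : k, c ≠ 0 → v (κ c) = 0 := by
    intro c hc
    rw [hv, val, hκdef, RingHom.comp_apply, Algebra.norm_algebraMap]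
    have h1 : ((κ0 k c) ^ Module.finrank (LaurentSeries k) F : LaurentSeries k) =
        HahnSeries.C (c ^ Module.finrank (LaurentSeries k) F) := (map_pow _ _ _).symm
    rw [h1, HahnSeries.C_apply, HahnSeries.orderTop_single (pow_ne_zero _ hc)]
    rfl
  have hκ : ∀ c : k, 0 ≤ v (κ c) := by
    intro c
    by_cases hc : c = 0
    · rw [hc, map_zero, AddValuation.map_zero]; exact le_top
    · rw [hκ0 c hc]
  obtain ⟨L, hL, hpoly⟩ := eva_hom κ v hm hy hκ (hCPL k F v hv)
  -- values
  have hunit : ∀ u : PowerSeries k, PowerSeries.constantCoeff u ≠ 0 → v (L u) = 0 := by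
    intro u hu
    have h1 := hL u 1
    have h2 : (PowerSeries.trunc 1 u).eval₂ κ y = κ (PowerSeries.constantCoeff u) := by
      rw [PowerSeries.trunc_one_left, Polynomial.eval₂_C,
        PowerSeries.coeff_zero_eq_constantCoeff_apply]
    rw [h2] at h1
    have h3 : v (κ (PowerSeries.constantCoeff u)) = 0 := hκ0 _ hu
    have h4 : v (κ (PowerSeries.constantCoeff u)) <
        v (L u - κ (PowerSeries.constantCoeff u)) := by
      rw [h3]
      refine lt_of_lt_of_le ?_ h1
      exact_mod_cast (zero_lt_one : (0 : ℤ) < 1)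
    rw [AddValuation.map_eq_of_lt_sub v h4, h3]
  have hX : L PowerSeries.X = y := by
    have := hpoly Polynomial.X
    rwa [Polynomial.coe_X, Polynomial.eval₂_X] at this
  have hCc : ∀ c : k, L (PowerSeries.C c) = κ c := by
    intro c
    have := hpoly (Polynomial.C c)
    rwa [Polynomial.coe_C, Polynomial.eval₂_C] at this
  have hval : ∀ f : PowerSeries k, f ≠ 0 →
      v (L f) = m • (HahnSeries.ofPowerSeries ℤ k f).orderTop := by
    intro f hf
    set n := f.order.toNat
    set u := PowerSeries.divXPowOrder f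
    have hu : PowerSeries.constantCoeff u ≠ 0 := by
      intro h
      exact hf (PowerSeries.constantCoeff_divXPowOrder_eq_zero_iff.mp h)
    have hfe : PowerSeries.X ^ n * u = f := PowerSeries.X_pow_order_mul_divXPowOrder
    have e1 : v (L f) = (((n * m : ℕ) : ℤ) : WithTop ℤ) := by
      rw [← hfe, map_mul, v.map_mul, hunit u hu, add_zero, map_pow, hX, v.map_pow, hy, eva_smul]
    have e2 : (HahnSeries.ofPowerSeries ℤ k f).orderTop = ((n : ℤ) : WithTop ℤ) := by
      rw [← hfe, map_mul, HahnSeries.orderTop_mul, eva_ord u hu, add_zero,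
        HahnSeries.ofPowerSeries_X_pow, HahnSeries.orderTop_single one_ne_zero]
    rw [e1, e2, eva_smul, mul_comm]
  have hinj : Function.Injective L := by
    rw [injective_iff_map_eq_zero]
    intro f hf
    by_contra hne
    have h1 := hval f hne
    rw [hf, AddValuation.map_zero] at h1
    have h2 : HahnSeries.ofPowerSeries ℤ k f ≠ 0 := by
      intro h
      exact hne (HahnSeries.ofPowerSeries_injective (h.trans (map_zero _).symm))
    have h3 : (HahnSeries.ofPowerSeries ℤ k f).orderTop ≠ ⊤ := by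
      rw [HahnSeries.orderTop_of_ne_zero h2]
      exact WithTop.coe_ne_top
    obtain ⟨z, hz⟩ := WithTop.ne_top_iff_exists.mp h3
    rw [← hz, ← WithTop.coe_nsmul] at h1
    exact WithTop.coe_ne_top h1.symm
  set ι : LaurentSeries k →+* F :=
    IsFractionRing.lift (A := PowerSeries k) (K := LaurentSeries k) (g := L) hinj with hιdef
  have hι : ∀ f : PowerSeries k, ι (HahnSeries.ofPowerSeries ℤ k f) = L f := by
    intro f
    exact IsFractionRing.lift_algebraMap (K := LaurentSeries k) hinj f
  refine ⟨ι, ?_, ?_, ?_⟩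
  · intro c
    have h1 : κ0 k c = HahnSeries.ofPowerSeries ℤ k (PowerSeries.C c) :=
      (HahnSeries.ofPowerSeries_C c).symm
    rw [show ι (κ0 k c) = L (PowerSeries.C c) by rw [h1]; exact hι _, hCc]
    rfl
  · have h1 : (HahnSeries.single (1 : ℤ) (1 : k) : LaurentSeries k) =
        HahnSeries.ofPowerSeries ℤ k PowerSeries.X := HahnSeries.ofPowerSeries_X.symm
    rw [h1, hι, hX]
  · intro x
    by_cases hx : x = 0
    · rw [hx, map_zero, AddValuation.map_zero, HahnSeries.orderTop_zero]
      obtain ⟨j, rfl⟩ : ∃ j, m = j + 1 := ⟨m - 1, by omega⟩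
      rw [succ_nsmul, add_top]
    · obtain ⟨a, b, hb, hab⟩ := IsFractionRing.div_surjective (A := PowerSeries k) x
      have hb0 : b ≠ 0 := nonZeroDivisors.ne_zero hb
      have hb' : algebraMap (PowerSeries k) (LaurentSeries k) b ≠ 0 := by
        intro h
        exact hb0 ((IsFractionRing.injective (PowerSeries k) (LaurentSeries k))
          (h.trans (map_zero _).symm))
      have hxb : x * HahnSeries.ofPowerSeries ℤ k b = HahnSeries.ofPowerSeries ℤ k a := by
        rw [← hab]
        exact div_mul_cancel₀ _ hb'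
      have ha0 : a ≠ 0 := by
        intro h
        rw [h, map_zero] at hxb
        rcases mul_eq_zero.mp hxb with h' | h'
        · exact hx h'
        · exact hb' h'
      have e1 : v (ι x) + v (L b) = v (L a) := by
        rw [← v.map_mul, ← hι b, ← map_mul, hxb, hι]
      have e2 : m • x.orderTop + m • (HahnSeries.ofPowerSeries ℤ k b).orderTop =
          m • (HahnSeries.ofPowerSeries ℤ k a).orderTop := by
        rw [← nsmul_add, ← HahnSeries.orderTop_mul, hxb]
      rw [hval b hb0, hval a ha0, ← e2] at e1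
      have h3 : m • (HahnSeries.ofPowerSeries ℤ k b).orderTop ≠ ⊤ := by
        rw [← hval b hb0, Ne, AddValuation.top_iff]
        intro h
        exact hb0 (hinj (h.trans (map_zero _).symm))
      exact WithTop.add_right_cancel h3 e1

end Pool.Agent.Helper26.WR
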