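import Pool.Agent.Helper26.WR.Stmts

set_option autoImplicit false

/-! # A substitution of a uniformizer is surjective -/

namespace Pool.Agent.Helper26.WR

open Pool.Agent.Helper21.DN

universe u

private theorem sur1_top {z : WithTop ℤ} (h : ∀ n : ℕ, ((n : ℤ) : WithTop ℤ) ≤ z) : z = ⊤ := by
  by_contra hz
  lift z to ℤ using hz
  have h1 := h (z.toNat + 1)
  have h2 : (((z.toNat + 1 : ℕ) : ℤ)) ≤ z := by exact_mod_cast h1
  omega

private theorem sur1_nonneg {k : Type u} [Field k] (g : PowerSeries k) :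
    0 ≤ (HahnSeries.ofPowerSeries ℤ k g).orderTop := by
  refine HahnSeries.le_orderTop_iff_forall.mpr fun i hi => ?_
  have := PowerSeries.coeff_coe (f := g) i
  rw [if_pos (by exact_mod_cast hi)] at this
  exact this

theorem st_SUR1 : ST_SUR1.{u} := by
  intro k _ F _ κ v hTV ι hικ hιv
  set s : LaurentSeries k := HahnSeries.single (1 : ℤ) (1 : k) with hs
  set y : F := ι s with hy
  have hvy : v y = ((1 : ℤ) : WithTop ℤ) := by
    rw [hy, hιv, hs, HahnSeries.orderTop_single one_ne_zero]
  have hy0 : y ≠ 0 := by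
    intro h
    rw [h, AddValuation.map_zero] at hvy
    exact WithTop.coe_ne_top hvy.symm
  have hstep : ∀ x : {x : F // 0 ≤ v x}, ∃ (c : k) (x' : {x : F // 0 ≤ v x}),
      (x : F) = κ c + y * (x' : F) := by
    rintro ⟨x, hx⟩
    obtain ⟨c, hc⟩ := hTV.const x hx
    refine ⟨c, ⟨(x - κ c) / y, ?_⟩, ?_⟩
    · have h1 : v ((x - κ c) / y) + ((1 : ℤ) : WithTop ℤ) = v (x - κ c) := by
        rw [← hvy, ← v.map_mul, div_mul_cancel₀ _ hy0]
      have h2 : ((1 : ℤ) : WithTop ℤ) ≤ v ((x - κ c) / y) + ((1 : ℤ) : WithTop ℤ) := by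
        rw [h1]; exact hc
      have h3 : (0 : WithTop ℤ) + ((1 : ℤ) : WithTop ℤ) ≤
          v ((x - κ c) / y) + ((1 : ℤ) : WithTop ℤ) := by rwa [zero_add]
      exact (WithTop.add_le_add_iff_right WithTop.coe_ne_top).mp h3
    · simp only
      rw [mul_div_cancel₀ _ hy0]
      ring
  choose c nx hnx using hstep
  have hpoly : ∀ P : Polynomial k, ι (HahnSeries.ofPowerSeries ℤ k (P : PowerSeries k)) =
      P.eval₂ κ y := by
    intro P
    have h : (ι.comp (HahnSeries.ofPowerSeries ℤ k)).comp
        (Polynomial.coeToPowerSeries.ringHom (R := k)) = Polynomial.eval₂RingHom κ y := by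
      refine Polynomial.ringHom_ext (fun a => ?_) ?_
      · simp only [RingHom.comp_apply, Polynomial.coeToPowerSeries.ringHom_apply,
          Polynomial.coe_C, Polynomial.coe_eval₂RingHom, Polynomial.eval₂_C]
        rw [HahnSeries.ofPowerSeries_C]
        exact hικ a
      · simp only [RingHom.comp_apply, Polynomial.coeToPowerSeries.ringHom_apply,
          Polynomial.coe_X, Polynomial.coe_eval₂RingHom, Polynomial.eval₂_X]
        rw [HahnSeries.ofPowerSeries_X]
    exact RingHom.congr_fun h P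
  have hint : ∀ x : F, 0 ≤ v x → ∃ g : LaurentSeries k, ι g = x := by
    intro x hx
    set X : ℕ → {x : F // 0 ≤ v x} := fun n => nx^[n] ⟨x, hx⟩ with hX
    set f : PowerSeries k := PowerSeries.mk fun n => c (X n) with hf
    have hxn : ∀ n : ℕ, x = (PowerSeries.trunc n f).eval₂ κ y + y ^ n * (X n : F) := by
      intro n
      rw [PowerSeries.eval₂_trunc_eq_sum_range]
      induction n with
      | zero => simp [hX]
      | succ n ih =>
        rw [Finset.sum_range_succ]
        have h1 : ((X n : {x : F // 0 ≤ v x}) : F) = κ (c (X n)) + y * (X (n + 1) : F) := by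
          have h2 := hnx (X n)
          have h3 : nx (X n) = X (n + 1) := (Function.iterate_succ_apply' nx n _).symm
          rw [h3] at h2
          exact h2
        have h4 : PowerSeries.coeff n f = c (X n) := PowerSeries.coeff_mk n _
        rw [h4]
        conv_lhs => rw [ih, h1]
        ring
    refine ⟨HahnSeries.ofPowerSeries ℤ k f, ?_⟩
    have htop : v (ι (HahnSeries.ofPowerSeries ℤ k f) - x) = ⊤ := by
      refine sur1_top fun n => ?_
      obtain ⟨g, hg⟩ : (PowerSeries.X : PowerSeries k) ^ n ∣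
          f - ((PowerSeries.trunc n f : Polynomial k) : PowerSeries k) := by
        rw [PowerSeries.X_pow_dvd_iff]
        intro i hi
        rw [map_sub, Polynomial.coeff_coe, PowerSeries.coeff_trunc, if_pos hi, sub_self]
      have h1 : ι (HahnSeries.ofPowerSeries ℤ k f) - (PowerSeries.trunc n f).eval₂ κ y =
          y ^ n * ι (HahnSeries.ofPowerSeries ℤ k g) := by
        rw [← hpoly, ← map_sub, ← map_sub, hg, map_mul, map_mul, map_pow, map_pow,
          HahnSeries.ofPowerSeries_X]
      have h2 : ι (HahnSeries.ofPowerSeries ℤ k f) - x =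
          y ^ n * (ι (HahnSeries.ofPowerSeries ℤ k g) - (X n : F)) := by
        have h3 := hxn n
        linear_combination h1 - h3
      rw [h2, v.map_mul, v.map_pow, hvy]
      have h4 : n • ((1 : ℤ) : WithTop ℤ) = ((n : ℤ) : WithTop ℤ) := by
        rw [← WithTop.coe_nsmul]; simp
      rw [h4]
      calc ((n : ℤ) : WithTop ℤ) = ((n : ℤ) : WithTop ℤ) + 0 := (add_zero _).symm
        _ ≤ _ := add_le_add le_rfl (AddValuation.map_le_sub v ?_ (X n).2)
      rw [hιv]
      exact sur1_nonneg g
    exact sub_eq_zero.mp ((AddValuation.top_iff v).mp htop)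
  intro x
  by_cases hx : x = 0
  · exact ⟨0, by rw [hx, map_zero]⟩
  have hvx : v x ≠ ⊤ := (AddValuation.ne_top_iff v).mpr hx
  obtain ⟨z, hz⟩ := WithTop.ne_top_iff_exists.mp hvx
  obtain ⟨g, hg⟩ := hint (y ^ (-z).toNat * x) (by
    rw [v.map_mul, v.map_pow, hvy, ← hz, ← WithTop.coe_nsmul, ← WithTop.coe_add]
    have : (0 : ℤ) ≤ (-z).toNat • (1 : ℤ) + z := by
      simp only [nsmul_eq_mul, mul_one]
      omega
    exact_mod_cast this)
  refine ⟨g / s ^ (-z).toNat, ?_⟩
  rw [map_div₀, map_pow, hg]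
  exact mul_div_cancel_left₀ _ (pow_ne_zero _ hy0)

end Pool.Agent.Helper26.WR
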